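import Mathlib
import Pool.Agent.Lib.MP_7a4764_an.Slice

set_option autoImplicit false

namespace Pool.Agent.Variants.MP_7a4764_an.TestFamily

open Polynomial

/-- A real polynomial is real-rooted if it is zero or all its complex zeros are real. -/
def RealRooted (f : ℝ[X]) : Prop := f = 0 ∨ ∀ z : ℂ, aeval z f = 0 → z.im = 0

open Pool.Agent.Lib.MP_7a4764_an

/-- A linear map sends all real-rooted polynomials with nonnegative coefficients to real-rooted
polynomials if and only if it does so for the polynomials `X ^ a * (X + u) ^ b * (X + v) ^ c`. -/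
theorem result (T : ℝ[X] →ₗ[ℝ] ℝ[X]) :
    (∀ f : ℝ[X], RealRooted f → (∀ k, 0 ≤ f.coeff k) → RealRooted (T f)) ↔
    (∀ (a b c : ℕ) (u v : ℝ), 0 < u → 0 < v →
      RealRooted (T (X ^ a * (X + C u) ^ b * (X + C v) ^ c))) := by
  constructor
  · intro h a b c u v hu hv
    refine h _ (splits_iff_im.1 ?_) ?_
    · exact ((Splits.X_pow a).mul ((Splits.X_add_C u).pow b)).mul ((Splits.X_add_C v).pow c)
    · refine coeff_mul_nonneg (coeff_mul_nonneg (coeff_pow_nonneg (fun k => ?_) a)
        (coeff_pow_nonneg (coeff_X_add_C_nonneg hu.le) b))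
        (coeff_pow_nonneg (coeff_X_add_C_nonneg hv.le) c)
      simpa using coeff_X_add_C_nonneg le_rfl k
  · intro h f hf hc
    by_cases hT : T f = 0
    · exact Or.inl hT
    refine Or.inr fun z hz => ?_
    by_contra him
    have h0 : f ≠ 0 := by rintro rfl; simp at hT
    obtain ⟨g, hg, hfg⟩ := exists_D (splits_iff_im.2 hf) hc h0 le_rfl
    have h1 : f.eval 1 ≠ 0 := (eval_pos_of_coeff_nonneg hc h0 one_pos).ne'
    have hTf : T f = f.eval 1 • T g := by
      conv_lhs => rw [hfg, C_mul', map_smul]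
    let ev : ℝ[X] →ₗ[ℝ] ℂ := (aeval z : ℝ[X] →ₐ[ℝ] ℂ).toLinearMap ∘ₗ T
    have hevg : ev g = 0 := by
      rw [hTf, map_smul, smul_eq_zero] at hz
      exact hz.resolve_left h1
    have hTg : T g ≠ 0 := by
      intro h2; rw [h2, smul_zero] at hTf; exact hT hTf
    obtain ⟨a, b, c, u, v, -, hu, hv, e₁, e₂, e₃⟩ :=
      slice (Complex.reLm ∘ₗ ev) (Complex.imLm ∘ₗ ev) (lcoeff ℝ (T g).natDegree ∘ₗ T) hg
        (by simp [hevg]) (by simp [hevg]) (leadingCoeff_ne_zero.2 hTg)
    rcases h a b c u v hu hv with h2 | h2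
    · exact e₃ (by simp [h2])
    · exact him (h2 z (Complex.ext e₁ e₂))

end Pool.Agent.Variants.MP_7a4764_an.TestFamily
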