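import Mathlib
import Pool.Agent.Lib.MP_7a4764_an.H60Main
import Pool.Agent.Lib.MP_7a4764_an.H60Limit
import Pool.Agent.Variants.MP_7a4764_an.TestFamily

set_option autoImplicit false

namespace Pool.Agent.Variants.MP_7a4764_an.ExactTests

open Polynomial

/-- A real polynomial is real-rooted if it is zero or all its complex zeros are real. -/
def RealRooted (f : ℝ[X]) : Prop := f = 0 ∨ ∀ z : ℂ, aeval z f = 0 → z.im = 0

open Pool.Agent.Lib.MP_7a4764_an Pool.Agent.Lib.MP_7a4764_an.H60

/-- A set `S` of exponent triples decides membership in the class (a linear map is in the class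
if and only if it sends the polynomials `X ^ a * (X + u) ^ b * (X + v) ^ c` with `(a, b, c)` in `S`
and `0 < u < v` to real-rooted polynomials) exactly when `S` contains every triple with
`1 ≤ b` and `1 ≤ c`. -/
theorem result (S : Set (ℕ × ℕ × ℕ)) :
    (∀ T : ℝ[X] →ₗ[ℝ] ℝ[X],
      (∀ f : ℝ[X], RealRooted f → (∀ k, 0 ≤ f.coeff k) → RealRooted (T f)) ↔
      (∀ (a b c : ℕ) (u v : ℝ), (a, b, c) ∈ S → 0 < u → u < v →
        RealRooted (T (X ^ a * (X + C u) ^ b * (X + C v) ^ c)))) ↔
    ∀ a b c : ℕ, 1 ≤ b → 1 ≤ c → (a, b, c) ∈ S := by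
  constructor
  · intro h a₀ b₀ c₀ hb₀ hc₀
    by_contra hS
    obtain ⟨α, β, M, K, h1, p, q, hq, hqp, hp, e1, e2, e3⟩ := exists_counter a₀ b₀ c₀ hb₀ hc₀
    let T : ℝ[X] →ₗ[ℝ] ℝ[X] := (M + (2 * K) • α).smulRight (X ^ 2) +
      ((2 * (2 * K)) • β).smulRight X + (M - (2 * K) • α).smulRight 1
    have hT : ∀ f, T f = C (M f + 2 * K * α f) * X ^ 2 + C (2 * (2 * K * β f)) * X +
        C (M f - 2 * K * α f) := by
      intro f
      simp only [T, LinearMap.add_apply, LinearMap.smulRight_apply, LinearMap.smul_apply,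
        LinearMap.sub_apply, smul_eq_mul, smul_eq_C_mul, mul_one, mul_assoc]
    have h2 := (h T).2 (fun a b c u v habc hu huv => by
      have hv : 0 < v := hu.trans huv
      have e : (X ^ a * (X + C u) ^ b * (X + C v) ^ c : ℝ[X]) = ((1 + u) ^ b * (1 + v) ^ c) •
          (X ^ a * L (1 / (1 + u)) ^ b * L (1 / (1 + v)) ^ c) := by
        rw [X_add_C_eq hu.le, X_add_C_eq hv.le, smul_eq_C_mul, C_mul, C_pow, C_pow]; ring
      have h3 := h1 a b c (1 / (1 + u)) (1 / (1 + v)) (by positivity)
        (one_div_le_one_div_of_le (by linarith) (by linarith))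
        (by rw [div_le_one (by linarith)]; linarith) (fun h4 => hS (h4 ▸ habc))
      refine splits_iff_im.1 ?_
      rw [e, map_smul, smul_eq_C_mul, hT]
      refine (Splits.C _).mul (splits_quad ?_)
      set g := (X ^ a * L (1 / (1 + u)) ^ b * L (1 / (1 + v)) ^ c : ℝ[X])
      have h4 : |M g| ^ 2 ≤ (K * (|α g| + |β g|)) ^ 2 := pow_le_pow_left₀ (abs_nonneg _) h3 2
      have h5 : (|α g| + |β g|) ^ 2 ≤ 4 * (α g ^ 2 + β g ^ 2) := by
        nlinarith [sq_abs (α g), sq_abs (β g), sq_nonneg (|α g| - |β g|), sq_nonneg (α g),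
          sq_nonneg (β g)]
      have h6 := mul_le_mul_of_nonneg_left h5 (sq_nonneg K)
      rw [sq_abs, mul_pow] at h4
      nlinarith)
    have hp0 : 0 < p := hq.trans hqp
    have hL : ∀ s : ℝ, 0 < s → s ≤ 1 → (L s).Splits ∧ ∀ k, 0 ≤ (L s).coeff k := by
      intro s hs hs1
      refine ⟨by rw [L_eq hs.ne']; exact (Splits.C _).mul (Splits.X_add_C _), fun k => ?_⟩
      exact (le_lin hs.le (sub_nonneg.2 hs1) le_rfl le_rfl k).1
    have h3 := h2 (X ^ a₀ * L p ^ b₀ * L q ^ c₀) (splits_iff_im.1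
      (((Splits.X_pow a₀).mul ((hL p hp0 hp.le).1.pow b₀)).mul
        ((hL q hq (by linarith)).1.pow c₀)))
      (coeff_mul_nonneg (coeff_mul_nonneg (coeff_pow_nonneg
        (fun k => by simpa using coeff_X_add_C_nonneg le_rfl k) a₀)
        (coeff_pow_nonneg (hL p hp0 hp.le).2 b₀)) (coeff_pow_nonneg (hL q hq (by linarith)).2 c₀))
    rw [hT, e1, e2] at h3
    rcases h3 with h3 | h3
    · have := congrArg (fun f : ℝ[X] => f.eval 0) h3
      exact e3 (by simpa using this)
    · have := h3 Complex.I (by simp)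
      simp at this
  · intro hS T
    refine (TestFamily.result T).trans
      ⟨fun h a b c u v _ hu huv => h a b c u v hu (hu.trans huv), fun h => ?_⟩
    have h1 : ∀ (a b : ℕ) (v : ℝ), 1 ≤ b → 0 < v → (T (X ^ a * (X + C v) ^ b)).Splits := by
      intro a b v hb hv
      refine splits_of_ray (A := T (X ^ a * (X + C v) ^ b * X)) (w₀ := v) fun w hw => ?_
      have := splits_iff_im.2 (h a b 1 v w (hS a b 1 hb le_rfl) hv hw)
      rwa [pow_one, mul_add, map_add, mul_comm _ (C w), C_mul', map_smul] at this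
    have h2 : ∀ (a b : ℕ) (v : ℝ), 0 < v → (T (X ^ a * (X + C v) ^ b)).Splits := by
      intro a b v hv
      rcases Nat.eq_zero_or_pos b with rfl | hb
      · rw [pow_zero, mul_one]
        refine splits_of_ray (A := T (X ^ a * X)) (w₀ := 0) fun w hw => ?_
        have := h1 a 1 w le_rfl hw
        rwa [pow_one, mul_add, map_add, mul_comm _ (C w), C_mul', map_smul] at this
      · exact h1 a b v hb hv
    intro a b c u v hu hv
    rcases Nat.eq_zero_or_pos b with rfl | hb
    · refine splits_iff_im.1 ?_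
      simpa using h2 a c v hv
    rcases Nat.eq_zero_or_pos c with rfl | hc
    · refine splits_iff_im.1 ?_
      simpa using h2 a b u hu
    rcases lt_trichotomy u v with huv | rfl | huv
    · exact h a b c u v (hS a b c hb hc) hu huv
    · rw [mul_assoc, ← pow_add]; exact splits_iff_im.1 (h2 a (b + c) u hu)
    · rw [mul_right_comm]; exact h a c b v u (hS a c b hc hb) hv huv

end Pool.Agent.Variants.MP_7a4764_an.ExactTests
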