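import Mathlib
import Pool.Agent.Lib.MP_7a4764_an.Open

set_option autoImplicit false

namespace Pool.Agent.Variants.MP_7a4764_an.Nondegenerate

open Polynomial

/-- A real polynomial is real-rooted if it is zero or all its complex zeros are real. -/
def RealRooted (f : ℝ[X]) : Prop := f = 0 ∨ ∀ z : ℂ, aeval z f = 0 → z.im = 0

open Pool.Agent.Lib.MP_7a4764_an

/-- A linear map sends all nonzero real-rooted polynomials with nonnegative coefficients to
nonzero real-rooted polynomials if and only if it does so for the polynomials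
`X ^ a * (X + v) ^ b`, and the images of the polynomials `X ^ a * (X + u) * (X + v) ^ b` with
`0 < u < v` do not vanish at the single point `i`. -/
theorem result (T : ℝ[X] →ₗ[ℝ] ℝ[X]) :
    (∀ f : ℝ[X], f ≠ 0 → RealRooted f → (∀ k, 0 ≤ f.coeff k) → T f ≠ 0 ∧ RealRooted (T f)) ↔
    ((∀ (a b : ℕ) (v : ℝ), 0 < v →
        T (X ^ a * (X + C v) ^ b) ≠ 0 ∧ RealRooted (T (X ^ a * (X + C v) ^ b))) ∧
      ∀ (a b : ℕ) (u v : ℝ), 0 < u → u < v →
        aeval Complex.I (T (X ^ a * (X + C u) * (X + C v) ^ b)) ≠ 0) := by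
  constructor
  · intro h
    have key : ∀ (a c b : ℕ) (u v : ℝ), 0 < u → 0 < v →
        T (X ^ a * (X + C u) ^ c * (X + C v) ^ b) ≠ 0 ∧
          RealRooted (T (X ^ a * (X + C u) ^ c * (X + C v) ^ b)) := by
      intro a c b u v hu hv
      refine h _ (mul_ne_zero (mul_ne_zero (pow_ne_zero _ X_ne_zero)
        (pow_ne_zero _ (X_add_C_ne_zero u))) (pow_ne_zero _ (X_add_C_ne_zero v)))
        (splits_iff_im.1 ?_) ?_
      · exact ((Splits.X_pow a).mul ((Splits.X_add_C u).pow c)).mul ((Splits.X_add_C v).pow b)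
      · refine coeff_mul_nonneg (coeff_mul_nonneg (coeff_pow_nonneg (fun k => ?_) a)
          (coeff_pow_nonneg (coeff_X_add_C_nonneg hu.le) c))
          (coeff_pow_nonneg (coeff_X_add_C_nonneg hv.le) b)
        simpa using coeff_X_add_C_nonneg le_rfl k
    refine ⟨fun a b v hv => by simpa using key a 0 b v v hv hv, fun a b u v hu huv h0 => ?_⟩
    have h1 := key a 1 b u v hu (hu.trans huv)
    rw [pow_one] at h1
    simpa using h1.2.resolve_left h1.1 _ h0
  · rintro ⟨h₁, h₂⟩ f h0 hf hc
    have h₃ : ∀ (a b : ℕ) (v : ℝ), 0 < v → ∀ z : ℂ, 0 < z.im →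
        aeval z (T (X ^ a * (X + C v) ^ b)) ≠ 0 := fun a b v hv z hz h =>
      hz.ne' ((h₁ a b v hv).2.resolve_left (h₁ a b v hv).1 z h)
    have hI : Complex.I ∉ Z T f.natDegree := by
      rintro ⟨g, hg, hg0⟩
      let ev : ℝ[X] →ₗ[ℝ] ℂ := (aeval Complex.I : ℝ[X] →ₐ[ℝ] ℂ).toLinearMap ∘ₗ T
      have hev : ev g = 0 := hg0
      obtain ⟨t, ht, e₁, e₂⟩ := sharp_slice _ (Complex.reLm ∘ₗ ev) (Complex.imLm ∘ₗ ev) g hg
        (by simp [hev]) (by simp [hev])
      have e : aeval Complex.I (T t) = 0 := Complex.ext e₁ e₂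
      rcases ht with rfl | ⟨a, b, u, v, hu, huv, rfl⟩
      · exact h₃ 0 0 1 one_pos Complex.I (by simp) (by simpa using e)
      rcases (hu.trans huv).eq_or_lt with hv | hv
      · obtain rfl : u = 0 := le_antisymm (hv ▸ huv) hu
        subst hv
        refine h₃ (a + 1 + b) 0 1 one_pos Complex.I (by simp) ?_
        rw [← e]; congr 2; simp [pow_add]
      rcases hu.eq_or_lt with hu | hu
      · subst hu
        refine h₃ (a + 1) b v hv Complex.I (by simp) ?_
        rw [← e]; congr 2; simp [pow_add]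
      rcases huv.eq_or_lt with huv | huv
      · subst huv
        refine h₃ a (b + 1) u hv Complex.I (by simp) ?_
        rw [← e]; congr 2; ring
      · exact h₂ a b u v hu huv e
    obtain ⟨g, hg, hfg⟩ := exists_D (splits_iff_im.2 hf) hc h0 le_rfl
    have h1 : f.eval 1 ≠ 0 := (eval_pos_of_coeff_nonneg hc h0 one_pos).ne'
    have hTf : T f = f.eval 1 • T g := by
      conv_lhs => rw [hfg, C_mul', map_smul]
    have key : ∀ z : ℂ, 0 < z.im → aeval z (T f) ≠ 0 := by
      intro z hz h
      rw [hTf, map_smul, smul_eq_zero] at h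
      exact not_mem_Z T _ h₃ hI hz ⟨g, hg, h.resolve_left h1⟩
    refine ⟨fun h => key Complex.I (by simp) (by simp [h]), Or.inr fun z hz => ?_⟩
    rcases lt_trichotomy z.im 0 with h | h | h
    · exact absurd (by rw [aeval_conj, hz, map_zero])
        (key ((starRingEnd ℂ) z) (by simpa using h))
    · exact h
    · exact absurd hz (key z h)

end Pool.Agent.Variants.MP_7a4764_an.Nondegenerate
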