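import Mathlib
import Pool.Agent.Lib.MP_7a4764_an.H81Main

set_option autoImplicit false

namespace Pool.Agent.Variants.MP_7a4764_an.OneParameter

open Polynomial

/-- A real polynomial is real-rooted if it is zero or all its complex zeros are real. -/
def RealRooted (f : ℝ[X]) : Prop := f = 0 ∨ ∀ z : ℂ, aeval z f = 0 → z.im = 0

open Pool.Agent.Lib.MP_7a4764_an Pool.Agent.Lib.MP_7a4764_an.H81

/-- Suppose that for every `n` there are a bound `d` for the degrees of `T (X ^ k)`, `k ≤ n`, and a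
linear map `M` that sends nonzero real-rooted polynomials of degree at most `d` to nonzero
real-rooted polynomials, such that the degree of `M (T (X ^ a * (X + v) ^ b))`, `a + b ≤ n`, does
not depend on `v > 0`. Then `T` sends all real-rooted polynomials with nonnegative coefficients to
real-rooted polynomials if and only if it does so for the polynomials `X ^ a * (X + v) ^ b`. -/
theorem result (T : ℝ[X] →ₗ[ℝ] ℝ[X])
    (hT : ∀ n : ℕ, ∃ (d : ℕ) (M : ℝ[X] →ₗ[ℝ] ℝ[X]),
      (∀ k ≤ n, (T (X ^ k)).natDegree ≤ d) ∧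
      (∀ g : ℝ[X], g.natDegree ≤ d → g ≠ 0 → RealRooted g → M g ≠ 0 ∧ RealRooted (M g)) ∧
      ∀ (a b : ℕ) (u v : ℝ), a + b ≤ n → 0 < u → 0 < v →
        (M (T (X ^ a * (X + C u) ^ b))).degree = (M (T (X ^ a * (X + C v) ^ b))).degree) :
    (∀ f : ℝ[X], RealRooted f → (∀ k, 0 ≤ f.coeff k) → RealRooted (T f)) ↔
      ∀ (a b : ℕ) (v : ℝ), 0 < v → RealRooted (T (X ^ a * (X + C v) ^ b)) := by
  constructor
  · intro h a b v hv
    refine h _ (splits_iff_im.1 ((Splits.X_pow a).mul ((Splits.X_add_C v).pow b))) ?_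
    refine coeff_mul_nonneg (coeff_pow_nonneg (fun k => ?_) a)
      (coeff_pow_nonneg (coeff_X_add_C_nonneg hv.le) b)
    simpa using coeff_X_add_C_nonneg le_rfl k
  · intro h₁ f hf hc
    by_cases hTf : T f = 0
    · exact Or.inl hTf
    refine Or.inr fun z hz => ?_
    have h0 : f ≠ 0 := by rintro rfl; simp at hTf
    obtain ⟨g, hg, hfg⟩ := exists_D (splits_iff_im.2 hf) hc h0 le_rfl
    have h1 : f.eval 1 ≠ 0 := (eval_pos_of_coeff_nonneg hc h0 one_pos).ne'
    have h2 : T f = f.eval 1 • T g := by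
      conv_lhs => rw [hfg, C_mul', map_smul]
    obtain ⟨d, M, hd, hM, H⟩ := hT f.natDegree
    by_contra him
    rw [h2, map_smul, smul_eq_zero] at hz
    refine hTf ?_
    rw [h2, no_zero (fun a b v _ hv => splits_iff_im.2 (h₁ a b v hv)) hd
      (fun p p1 p2 p3 => (hM p p1 p2 (splits_iff_im.1 p3)).imp id splits_iff_im.2) H him hg
      (hz.resolve_left h1), smul_zero]

end Pool.Agent.Variants.MP_7a4764_an.OneParameter
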