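import Mathlib
import Pool.Agent.Lib.MP_7a4764_an.H44Flow

set_option autoImplicit false

namespace Pool.Agent.Variants.MP_7a4764_an.TwoBlocks

open Polynomial Filter Topology

/-- A real polynomial is real-rooted if it is zero or all its complex zeros are real. -/
def RealRooted (f : ℝ[X]) : Prop := f = 0 ∨ ∀ z : ℂ, aeval z f = 0 → z.im = 0

open Pool.Agent.Lib.MP_7a4764_an Pool.Agent.Lib.MP_7a4764_an.H57 Pool.Agent.Lib.MP_7a4764_an.H44

/-- Let `T` kill a product `(X + u) ^ a * (X + v) ^ b` with `u, v > 0` only if it kills all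
polynomials of degree at most `a + b`. Then `T` sends all real-rooted polynomials with nonnegative
coefficients to real-rooted polynomials if and only if it does so for the products
`X ^ a * (X + v) ^ b` and no image of a product `(X + u) ^ a * (X + v) ^ b` with `u, v > 0` vanishes
at one fixed nonreal point unless it is zero. -/
theorem result (z₀ : ℂ) (hz₀ : z₀.im ≠ 0) (T : ℝ[X] →ₗ[ℝ] ℝ[X])
    (hT : ∀ (a b : ℕ) (u v : ℝ), 0 < u → 0 < v → T ((X + C u) ^ a * (X + C v) ^ b) = 0 →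
      ∀ j ≤ a + b, T (X ^ j) = 0) :
    (∀ f : ℝ[X], RealRooted f → (∀ k, 0 ≤ f.coeff k) → RealRooted (T f)) ↔
      ((∀ (a b : ℕ) (v : ℝ), 0 < v → RealRooted (T (X ^ a * (X + C v) ^ b))) ∧
        ∀ (a b : ℕ) (u v : ℝ), 0 < u → u ≤ v →
          aeval z₀ (T ((X + C u) ^ a * (X + C v) ^ b)) = 0 →
          T ((X + C u) ^ a * (X + C v) ^ b) = 0) := by
  classical
  have fwd : (∀ f : ℝ[X], RealRooted f → (∀ k, 0 ≤ f.coeff k) → RealRooted (T f)) →
      ∀ (a b : ℕ) (u v : ℝ), 0 ≤ u → 0 ≤ v →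
        RealRooted (T ((X + C u) ^ a * (X + C v) ^ b)) := by
    intro h a b u v hu hv
    refine h _ (splits_iff_im.1 ?_) ?_
    · exact ((Splits.X_add_C u).pow a).mul ((Splits.X_add_C v).pow b)
    · exact coeff_mul_nonneg (coeff_pow_nonneg (coeff_X_add_C_nonneg hu) a)
        (coeff_pow_nonneg (coeff_X_add_C_nonneg hv) b)
  have mid : (∀ (a b : ℕ) (u v : ℝ), 0 ≤ u → 0 ≤ v →
        RealRooted (T ((X + C u) ^ a * (X + C v) ^ b))) →
      ((∀ (a b : ℕ) (v : ℝ), 0 < v → RealRooted (T (X ^ a * (X + C v) ^ b))) ∧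
        ∀ (a b : ℕ) (u v : ℝ), 0 < u → u ≤ v →
          aeval z₀ (T ((X + C u) ^ a * (X + C v) ^ b)) = 0 →
          T ((X + C u) ^ a * (X + C v) ^ b) = 0) := by
    intro h
    refine ⟨fun a b v hv => by simpa using h a b 0 v le_rfl hv.le, fun a b u v hu huv h0 => ?_⟩
    exact (h a b u v hu.le (hu.le.trans huv)).resolve_right (fun h1 => hz₀ (h1 z₀ h0))
  have back : ((∀ (a b : ℕ) (v : ℝ), 0 < v → RealRooted (T (X ^ a * (X + C v) ^ b))) ∧
        ∀ (a b : ℕ) (u v : ℝ), 0 < u → u ≤ v →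
          aeval z₀ (T ((X + C u) ^ a * (X + C v) ^ b)) = 0 →
          T ((X + C u) ^ a * (X + C v) ^ b) = 0) →
      ∀ f : ℝ[X], RealRooted f → (∀ k, 0 ≤ f.coeff k) → RealRooted (T f) := by
    rintro ⟨h₁, h₂⟩ f hf hc
    have h₃ : ∀ (a b : ℕ) (v : ℝ), 0 < v → ∀ z : ℂ, z.im ≠ 0 →
        aeval z (T (X ^ a * (X + C v) ^ b)) = 0 → T (X ^ a * (X + C v) ^ b) = 0 :=
      fun a b v hv z hz h0 => (h₁ a b v hv).resolve_right (fun h1 => hz (h1 z h0))
    have h₄ : ∀ (a b : ℕ) (u v : ℝ), 0 < u → 0 < v →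
        aeval z₀ (T ((X + C u) ^ a * (X + C v) ^ b)) = 0 →
        T ((X + C u) ^ a * (X + C v) ^ b) = 0 := by
      intro a b u v hu hv
      rcases le_total u v with huv | huv
      · exact h₂ a b u v hu huv
      · rw [mul_comm]; exact h₂ b a v u hv huv
    have hconj : ∀ (n : ℕ) (z : ℂ), z ∈ Zo T n → (starRingEnd ℂ) z ∈ Zo T n := by
      rintro n z ⟨g, hg, h1, h2⟩
      exact ⟨g, hg, h1, by rw [aeval_conj, h2, map_zero]⟩
    have hI : ∀ n : ℕ, z₀ ∉ Zo T n := by
      rintro n ⟨g, hg, hTg, hg0⟩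
      have hex : ∃ j : ℕ, T (X ^ j) ≠ 0 := by
        by_contra h
        push Not at h
        exact hTg (lin_eq_zero_of_lt T (k := g.natDegree + 1) (fun j _ => h j)
          (degree_le_natDegree.trans_lt (by exact_mod_cast Nat.lt_succ_self _)))
      have hlow : ∀ j < Nat.find hex, T (X ^ j) = 0 := fun j hj =>
        not_not.1 (Nat.find_min hex hj)
      let φ : ℝ[X] →ₗ[ℝ] ℂ := (aeval z₀ : ℝ[X] →ₐ[ℝ] ℂ).toLinearMap ∘ₗ T
      have hφ : ∀ p, φ p = aeval z₀ (T p) := fun _ => rfl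
      let ψ : ℝ[X] →ₗ[ℝ] ℝ := lcoeff ℝ (T g).natDegree ∘ₗ T
      have hψ : ∀ p, T p = 0 → ψ p = 0 := fun p hp => by simp [ψ, hp]
      have h5 := zero_persists (fun y => φ ∘ₗ taylor y) (fun y => ψ ∘ₗ taylor y) n 0
        (continuous_taylor φ) (continuous_taylor ψ) hg
        (by simpa [ψ] using hTg) (by simpa [hφ] using hg0) (fun a b v hv h => by
          simp only [LinearMap.comp_apply, taylor_zero] at h ⊢
          exact hψ _ (h₃ a b v hv z₀ hz₀ h))
      obtain ⟨y, ⟨g', hg', h6, h7⟩, hy⟩ :=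
        ((h5.filter_mono (nhdsWithin_le_nhds (s := Set.Ioi 0))).and self_mem_nhdsWithin).exists
      refine flow φ (Nat.find hex) (fun j hj => by rw [hφ, hlow j hj, map_zero])
        (fun a b u v hu hv hk h => Nat.find_spec hex
          (hT a b u v hu hv (h₄ a b u v hu hv h) _ hk)) hy hg' (fun h => h6 ?_) h7
      exact hψ _ (lin_eq_zero_of_lt T hlow (by rwa [degree_taylor]))
    have hup : ∀ (n : ℕ) (z : ℂ), 0 < z.im → z ∉ Zo T n := by
      intro n z hz
      have h₅ := fun (a b : ℕ) (v : ℝ) (hv : 0 < v) (w : ℂ) (hw : 0 < w.im) => h₃ a b v hv w hw.ne'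
      rcases lt_or_gt_of_ne hz₀ with h | h
      · refine not_mem_Zo T n h₅ (z₀ := (starRingEnd ℂ) z₀) (by simpa using h) (fun h1 => ?_) hz
        exact hI n (by simpa using hconj n _ h1)
      · exact not_mem_Zo T n h₅ h (hI n) hz
    by_cases hT0 : T f = 0
    · exact Or.inl hT0
    refine Or.inr fun z hz => ?_
    have h0 : f ≠ 0 := by rintro rfl; simp at hT0
    obtain ⟨g, hg, hfg⟩ := exists_D (splits_iff_im.2 hf) hc h0 le_rfl
    have h1 : f.eval 1 ≠ 0 := (eval_pos_of_coeff_nonneg hc h0 one_pos).ne'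
    have hTf : T f = f.eval 1 • T g := by
      conv_lhs => rw [hfg, C_mul', map_smul]
    have hZ : z ∈ Zo T f.natDegree := by
      refine ⟨g, hg, fun h2 => hT0 (by rw [hTf, h2, smul_zero]), ?_⟩
      rw [hTf, map_smul, smul_eq_zero] at hz
      exact hz.resolve_left h1
    rcases lt_trichotomy z.im 0 with h | h | h
    · exact absurd (hconj _ z hZ) (hup _ _ (by simpa using h))
    · exact h
    · exact absurd hZ (hup _ _ h)
  exact ⟨fun h => mid (fwd h), back⟩

/-- Consequence: under the same kernel condition the products of two powers decide membership. -/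
theorem two_blocks (T : ℝ[X] →ₗ[ℝ] ℝ[X])
    (hT : ∀ (a b : ℕ) (u v : ℝ), 0 < u → 0 < v → T ((X + C u) ^ a * (X + C v) ^ b) = 0 →
      ∀ j ≤ a + b, T (X ^ j) = 0)
    (h : ∀ (a b : ℕ) (u v : ℝ), 0 ≤ u → 0 ≤ v → RealRooted (T ((X + C u) ^ a * (X + C v) ^ b))) :
    ∀ f : ℝ[X], RealRooted f → (∀ k, 0 ≤ f.coeff k) → RealRooted (T f) := by
  refine (result Complex.I (by simp) T hT).2
    ⟨fun a b v hv => by simpa using h a b 0 v le_rfl hv.le, fun a b u v hu huv h0 => ?_⟩
  exact (h a b u v hu.le (hu.le.trans huv)).resolve_right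
    (fun h1 => by simpa using h1 Complex.I h0)

end Pool.Agent.Variants.MP_7a4764_an.TwoBlocks
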